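import Pool.Agent.H37.HH.Targets4
import Pool.Agent.H3.CV.GC

/-!
# Row BSG of the board hha_modules: the mollified central value in terms of the smooth sums
(MP_347b49_nt)
-/

set_option autoImplicit false

open NumberField Complex Filter Topology MeasureTheory
open scoped ContDiff nonZeroDivisors

namespace Pool.Agent.H13.HH

open Pool.Agent.H33.HH Pool.Agent.H28.RC Pool.Agent.H37.CV
open Pool.Agent.H3.CV (nm_idS nm_mul idS_ne idS_dvd)

noncomputable section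

variable {K : Type} [Field K] [NumberField K]

theorem bsg_fin_np (P : ℝ) : {p : PrI K | np p ≤ P}.Finite := by
  have h := Ideal.finite_setOfPred_absNorm_le (S := 𝓞 K) ⌊P⌋₊
  refine Set.Finite.of_finite_image (f := Subtype.val) (h.subset ?_) Subtype.val_injective.injOn
  rintro _ ⟨p, hp, rfl⟩
  exact Nat.le_floor hp

theorem bsg_fin_NI (x : ℝ) : {l : NI K | nm l.1 ≤ x}.Finite := by
  have h := Ideal.finite_setOfPred_absNorm_le (S := 𝓞 K) ⌊x⌋₊
  refine Set.Finite.of_finite_image (f := Subtype.val) (h.subset ?_) Subtype.val_injective.injOn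
  rintro _ ⟨p, hp, rfl⟩
  exact Nat.le_floor hp

theorem bsg_mem_SP (P : ℝ) (p : PrI K) : p ∈ SP K P ↔ np p ≤ P := by
  unfold SP PM
  rw [dif_pos (bsg_fin_np P), Set.Finite.mem_toFinset]
  rfl

theorem bsg_Cp_iff (P : ℝ) (I : Ideal (𝓞 K)) : Cp P I ↔ ∀ p ∈ SP K P, ¬ I ≤ p.1 := by
  constructor
  · intro h p hp hI
    have h1 := h p hI
    rw [bsg_mem_SP] at hp
    linarith
  · intro h p hI
    by_contra hn
    exact h p ((bsg_mem_SP P p).2 (not_lt.1 hn)) hI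

open scoped Classical in
/-- inclusion and exclusion over the small primes -/
theorem bsg_ie (P : ℝ) (I : Ideal (𝓞 K)) :
    (if Cp P I then (1 : ℂ) else 0) =
      ∑ T ∈ (SP K P).powerset, (-1 : ℂ) ^ T.card * if ∀ p ∈ T, I ≤ p.1 then 1 else 0 := by
  have h2 : (if Cp P I then (1 : ℂ) else 0) =
      ∏ p ∈ SP K P, ((-(if I ≤ p.1 then 1 else 0)) + 1) := by
    by_cases h : Cp P I
    · rw [if_pos h, Finset.prod_eq_one]
      intro p hp
      rw [if_neg ((bsg_Cp_iff P I).1 h p hp)]; ring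
    · rw [if_neg h]
      rw [bsg_Cp_iff] at h
      push Not at h
      obtain ⟨p, hp, hpx⟩ := h
      rw [Finset.prod_eq_zero hp]
      rw [if_pos hpx]; ring
  rw [h2, Finset.prod_add]
  refine Finset.sum_congr rfl fun s hs => ?_
  rw [Finset.prod_const_one, mul_one]
  by_cases h : ∀ p ∈ s, I ≤ p.1
  · rw [if_pos h, mul_one, Finset.prod_congr rfl (g := fun _ => (-1 : ℂ)) (fun p hp => by
      rw [if_pos (h p hp)]), Finset.prod_const]
  · rw [if_neg h, mul_zero]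
    push Not at h
    obtain ⟨p, hp, hpx⟩ := h
    rw [Finset.prod_eq_zero hp]
    rw [if_neg hpx]; ring

theorem bsg_nm_pos {I : Ideal (𝓞 K)} (hI : I ≠ ⊥) : 0 < nm I := by
  unfold nm
  have h0 : Ideal.absNorm I ≠ 0 := fun h => hI (Ideal.absNorm_eq_zero_iff.1 h)
  exact_mod_cast Nat.pos_of_ne_zero h0

theorem gz_zero {G : ℝ → ℝ} (hG : IsG G) {Z t : ℝ} (hZ : 0 < Z) (ht : 3 * Z < t) :
    gz G Z t = 0 := by
  unfold gz
  rw [hG.high _ (by rw [le_div_iff₀ hZ]; exact ht.le), mul_zero]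

open scoped Classical in
/-- the part of the multiples of `idS T` -/
theorem bsg_part {G : ℝ → ℝ} {Z : ℝ} (ψ : Ideal (𝓞 K) → ℂ) (hψ : ∀ I J, ψ (I * J) = ψ I * ψ J)
    (T : Finset (PrI K)) :
    ∑' m : NI K, (if ∀ p ∈ T, m.1 ≤ p.1 then (1 : ℂ) else 0) *
        (((gz G Z (nm m.1) : ℝ) : ℂ) * ψ m.1) =
      ((nS np T ^ (-(1 / 2) : ℝ) : ℝ) : ℂ) * ψ (idS T) * SG G (Z / nS np T) (1 / 2) ψ := by
  let i : NI K → NI K := fun m => ⟨idS T * m.1, mul_ne_zero (idS_ne T) m.2⟩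
  have hi : Function.Injective i := by
    intro a b h
    have h1 : idS T * a.1 = idS T * b.1 := congrArg Subtype.val h
    exact Subtype.ext (mul_left_cancel₀ (idS_ne T) h1)
  have hsub : Function.support (fun m : NI K => (if ∀ p ∈ T, m.1 ≤ p.1 then (1 : ℂ) else 0) *
        (((gz G Z (nm m.1) : ℝ) : ℂ) * ψ m.1)) ⊆ Set.range i := by
    intro m hm
    have h1 : ∀ p ∈ T, m.1 ≤ p.1 := by
      by_contra h
      exact hm (by simp only [if_neg h, zero_mul])
    obtain ⟨J, hJ⟩ := idS_dvd h1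
    have hJ0 : J ≠ ⊥ := by
      rintro rfl
      exact m.2 (by rw [hJ]; exact mul_zero _)
    exact ⟨⟨J, hJ0⟩, Subtype.ext hJ.symm⟩
  rw [← hi.tsum_eq hsub]
  unfold SG
  rw [← tsum_mul_left]
  refine tsum_congr fun m => ?_
  have h1 : ∀ p ∈ T, (i m).1 ≤ p.1 := by
    intro p hp
    refine Ideal.mul_le_left.trans (Ideal.le_of_dvd ?_)
    exact Finset.dvd_prod_of_mem (fun p : PrI K => p.1) hp
  have hT : 0 < nS np T := by
    rw [← nm_idS]
    exact bsg_nm_pos (idS_ne T)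
  have hm : 0 < nm m.1 := bsg_nm_pos m.2
  rw [if_pos h1, one_mul]
  show ((gz G Z (nm (idS T * m.1)) : ℝ) : ℂ) * ψ (idS T * m.1) = _
  rw [hψ, nm_mul, nm_idS]
  have h2 : gz G Z (nS np T * nm m.1) = nS np T ^ (-(1 / 2) : ℝ) *
      (G (nm m.1 / (Z / nS np T)) * nm m.1 ^ (-(1 / 2) : ℝ)) := by
    unfold gz
    have h3 : nS np T * nm m.1 / Z = nm m.1 / (Z / nS np T) := by
      rw [div_div_eq_mul_div, mul_comm]
    rw [Real.mul_rpow hT.le hm.le, h3]
    ring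
  have h4 : (nm m.1 : ℂ) ^ (-(1 / 2) : ℂ) = ((nm m.1 ^ (-(1 / 2) : ℝ) : ℝ) : ℂ) := by
    rw [Complex.ofReal_cpow hm.le]
    push_cast
    rfl
  rw [h2, h4]
  push_cast
  ring

open scoped Classical in
theorem pf_BSG : T_BSG := by
  intro K _ _ _ P y Z G hG hy hZ ψ hψ hψ1 hψt
  unfold Bv
  congr 1
  have h1 : ∀ m : NI K, (if Cp P m.1 then ((gz G Z (nm m.1) : ℝ) : ℂ) * ψ m.1 else 0) =
      ∑ T ∈ (SP K P).powerset, (-1 : ℂ) ^ T.card *
        ((if ∀ p ∈ T, m.1 ≤ p.1 then (1 : ℂ) else 0) * (((gz G Z (nm m.1) : ℝ) : ℂ) * ψ m.1)) := by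
    intro m
    have h2 : (if Cp P m.1 then ((gz G Z (nm m.1) : ℝ) : ℂ) * ψ m.1 else 0) =
        (if Cp P m.1 then (1 : ℂ) else 0) * (((gz G Z (nm m.1) : ℝ) : ℂ) * ψ m.1) := by
      split_ifs <;> simp
    rw [h2, bsg_ie, Finset.sum_mul]
    exact Finset.sum_congr rfl fun T _ => by ring
  rw [tsum_congr h1, Summable.tsum_finsetSum]
  · refine Finset.sum_congr rfl fun T _ => ?_
    rw [tsum_mul_left, bsg_part ψ hψ T]
    ring
  · intro T _
    refine summable_of_hasFiniteSupport ((bsg_fin_NI (3 * Z)).subset fun m hm => ?_)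
    by_contra hn
    refine hm ?_
    have h3 : 3 * Z < nm m.1 := not_le.1 hn
    show (-1 : ℂ) ^ T.card * (_ * (((gz G Z (nm m.1) : ℝ) : ℂ) * ψ m.1)) = 0
    rw [gz_zero hG hZ h3]
    simp

end

end Pool.Agent.H13.HH
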