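import Pool.Agent.H33.HH.TC

/-!
# Row LAT of the board hha_modules: smooth sums over fractional ideals (MP_347b49_nt)
-/

set_option autoImplicit false

open NumberField Complex Filter Topology MeasureTheory
open scoped ContDiff nonZeroDivisors

namespace Pool.Agent.H13.HH

open Pool.Agent.H33.HH Pool.Agent.H28.RC Pool.Agent.H37.CV

noncomputable section

variable (K : Type) [Field K] [NumberField K]

/-- finitely many representatives of the ideal classes -/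
lemma exists_reps : ∃ (ι : Type) (_ : Fintype ι) (I : ι → FractionalIdeal (𝓞 K)⁰ K),
    (∀ i, I i ≠ 0) ∧ ∀ J : FractionalIdeal (𝓞 K)⁰ K, J ≠ 0 → ∃ (i : ι) (a : K), a ≠ 0 ∧
      J = FractionalIdeal.spanSingleton (𝓞 K)⁰ a * I i := by
  classical
  let Q := (FractionalIdeal (𝓞 K)⁰ K)ˣ ⧸ (toPrincipalIdeal (𝓞 K) K).range
  have hfin : Finite Q := Finite.of_equiv _ (ClassGroup.equiv (R := 𝓞 K) K).toEquiv
  obtain ⟨n, ⟨e⟩⟩ := Finite.exists_equiv_fin Q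
  refine ⟨Fin n, inferInstance, fun i => ((e.symm i).out : FractionalIdeal (𝓞 K)⁰ K),
    fun i => (e.symm i).out.ne_zero, fun J hJ => ?_⟩
  obtain ⟨⟨h, ⟨x, hx⟩⟩, hh⟩ := QuotientGroup.mk_out_eq_mul (toPrincipalIdeal (𝓞 K) K).range
    (Units.mk0 J hJ)
  refine ⟨e (QuotientGroup.mk (Units.mk0 J hJ)), ((x⁻¹ : Kˣ) : K), (x⁻¹).ne_zero, ?_⟩
  show J = _ * ((e.symm (e (QuotientGroup.mk (Units.mk0 J hJ)))).out :
    FractionalIdeal (𝓞 K)⁰ K)
  rw [Equiv.symm_apply_apply, hh, ← coe_toPrincipalIdeal, ← Units.val_mul, map_inv, hx]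
  have : h⁻¹ * (Units.mk0 J hJ * h) = Units.mk0 J hJ := by
    rw [mul_comm (Units.mk0 J hJ) h, inv_mul_cancel_left]
  show J = ((h⁻¹ * (Units.mk0 J hJ * h) : (FractionalIdeal (𝓞 K)⁰ K)ˣ) :
    FractionalIdeal (𝓞 K)⁰ K)
  rw [this]
  rfl

/-- the sum over a multiple of a fractional ideal as a sum over pairs of integers -/
lemma sum_eq (I : FractionalIdeal (𝓞 K)⁰ K) (a e₁ e₂ : K) (ha : a ≠ 0)
    (hm : ∀ x : K, x ∈ I ↔ ∃ m n : ℤ, x = m * e₁ + n * e₂)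
    (hi : ∀ m n : ℤ, m * e₁ + n * e₂ = 0 → m = 0 ∧ n = 0) (G : ℂ → ℝ) :
    ∑' x : {x : K // x ∈ FractionalIdeal.spanSingleton (𝓞 K)⁰ a * I}, G (em K x.1) =
      ∑' z : ℤ × ℤ, G (em K a * (z.1 * em K e₁ + z.2 * em K e₂)) := by
  have hmem : ∀ z : ℤ × ℤ, a * (z.1 * e₁ + z.2 * e₂) ∈
      FractionalIdeal.spanSingleton (𝓞 K)⁰ a * I := fun z =>
    FractionalIdeal.mem_singleton_mul.2 ⟨_, (hm _).2 ⟨z.1, z.2, rfl⟩, rfl⟩
  let f : ℤ × ℤ → {x : K // x ∈ FractionalIdeal.spanSingleton (𝓞 K)⁰ a * I} :=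
    fun z => ⟨a * (z.1 * e₁ + z.2 * e₂), hmem z⟩
  have hf : Function.Bijective f := by
    constructor
    · intro z z' h
      have h1 : a * (z.1 * e₁ + z.2 * e₂) = a * (z'.1 * e₁ + z'.2 * e₂) := congrArg Subtype.val h
      have h2 := mul_left_cancel₀ ha h1
      have h3 := hi (z.1 - z'.1) (z.2 - z'.2) (by
        push_cast
        linear_combination h2)
      exact Prod.ext (sub_eq_zero.1 h3.1) (sub_eq_zero.1 h3.2)
    · rintro ⟨x, hx⟩
      obtain ⟨y, hy, rfl⟩ := FractionalIdeal.mem_singleton_mul.1 hx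
      obtain ⟨m, n, rfl⟩ := (hm y).1 hy
      exact ⟨(m, n), rfl⟩
  rw [← (Equiv.ofBijective f hf).tsum_eq]
  refine tsum_congr fun z => ?_
  show G (em K (a * (z.1 * e₁ + z.2 * e₂))) = _
  rw [map_mul, map_add, map_mul, map_mul, map_intCast, map_intCast]

theorem pf_LAT (h0 : T_LA0) (h1 : T_LTB) (h2 : T_NRM) : T_LAT := by
  intro K _ _ _ k hk
  obtain ⟨ι, _, I, hI0, hrep⟩ := exists_reps K
  obtain ⟨-, -, -, -, hnorm, -, -⟩ := h2 K
  have hsd : 0 < sd K := by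
    unfold sd
    refine Real.sqrt_pos.2 (abs_pos.2 ?_)
    exact_mod_cast (IQ.neg (K := K)).ne
  -- the norms of the representatives
  set nI : ι → ℝ := fun i => ((FractionalIdeal.absNorm (I i) : ℚ) : ℝ) with hnI
  have hpos : ∀ i, 0 < nI i := fun i => by
    have h3 : (FractionalIdeal.absNorm (I i) : ℚ) ≠ 0 := fun h =>
      hI0 i (FractionalIdeal.absNorm_eq_zero_iff.1 h)
    have h4 : 0 < (FractionalIdeal.absNorm (I i) : ℚ) :=
      lt_of_le_of_ne (FractionalIdeal.absNorm_nonneg (I i)) (Ne.symm h3)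
    show (0 : ℝ) < ((FractionalIdeal.absNorm (I i) : ℚ) : ℝ)
    exact_mod_cast h4
  choose e₁ e₂ hm hi him using fun i => h1 K (I i) (hI0 i)
  have him0 : ∀ i, (em K (e₁ i) * (starRingEnd ℂ) (em K (e₂ i))).im ≠ 0 := fun i => by
    rw [← abs_pos, him i]
    have := hpos i
    positivity
  choose C hC0 hC using fun i => h0 (em K (e₁ i)) (em K (e₂ i)) k (1 / Real.sqrt (nI i)) (him0 i) hk
    (by have := Real.sqrt_pos.2 (hpos i); positivity)
  have hterm : ∀ i, 0 ≤ C i * nI i ^ (1 - (k : ℝ) / 2) := fun i =>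
    mul_nonneg (hC0 i) (Real.rpow_nonneg (hpos i).le _)
  refine ⟨∑ i, C i * nI i ^ (1 - (k : ℝ) / 2), Finset.sum_nonneg fun i _ => hterm i, ?_⟩
  intro J c R M F hJ hR hJR hF hF0 hFM
  obtain ⟨i, a, ha, rfl⟩ := hrep J hJ
  have hM : 0 ≤ M := (norm_nonneg _).trans (hFM 0)
  have hea : em K a ≠ 0 := fun h => ha ((map_eq_zero _).1 h)
  have hna : 0 < ‖em K a‖ := norm_pos_iff.2 hea
  have hNJ : ((FractionalIdeal.absNorm (FractionalIdeal.spanSingleton (𝓞 K)⁰ a * I i) : ℚ) : ℝ) =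
      ‖em K a‖ ^ 2 * nI i := by
    rw [map_mul, FractionalIdeal.absNorm_span_singleton, Rat.cast_mul, hnorm a]
  rw [hNJ] at hJR ⊢
  have hle : ‖em K a‖ ≤ 1 / Real.sqrt (nI i) * R := by
    have hs := Real.sqrt_pos.2 (hpos i)
    rw [div_mul_eq_mul_div, one_mul, le_div_iff₀ hs]
    refine le_of_sq_le_sq ?_ hR.le
    rw [mul_pow, Real.sq_sqrt (hpos i).le]
    exact hJR
  have key := hC i (em K a) c R M F hea hR hle hF hF0 hFM
  rw [sum_eq K (I i) a (e₁ i) (e₂ i) ha (hm i) (hi i) fun z => F ((z - c) / R)]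
  rw [him i] at key
  have e1 : R ^ 2 / (‖em K a‖ ^ 2 * (sd K / 2 * ((FractionalIdeal.absNorm (I i) : ℚ) : ℝ))) =
      2 * R ^ 2 / (sd K * (‖em K a‖ ^ 2 * nI i)) := by
    show R ^ 2 / (‖em K a‖ ^ 2 * (sd K / 2 * nI i)) = _
    have := (hpos i).ne'
    field_simp
  rw [e1] at key
  refine key.trans ?_
  have e2 : (R / ‖em K a‖) ^ (2 - (k : ℝ)) =
      nI i ^ (1 - (k : ℝ) / 2) * (R ^ 2 / (‖em K a‖ ^ 2 * nI i)) ^ (1 - (k : ℝ) / 2) := by
    have hp := hpos i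
    rw [← Real.mul_rpow hp.le (by positivity)]
    have e3 : nI i * (R ^ 2 / (‖em K a‖ ^ 2 * nI i)) = (R / ‖em K a‖) ^ 2 := by
      field_simp
    rw [e3, ← Real.rpow_natCast, ← Real.rpow_mul (by positivity)]
    congr 1
    push_cast
    ring
  rw [e2]
  have hr : 0 ≤ (R ^ 2 / (‖em K a‖ ^ 2 * nI i)) ^ (1 - (k : ℝ) / 2) :=
    Real.rpow_nonneg (by have := hpos i; positivity) _
  calc C i * M * (nI i ^ (1 - (k : ℝ) / 2) *
        (R ^ 2 / (‖em K a‖ ^ 2 * nI i)) ^ (1 - (k : ℝ) / 2))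
      = (C i * nI i ^ (1 - (k : ℝ) / 2)) * M *
        (R ^ 2 / (‖em K a‖ ^ 2 * nI i)) ^ (1 - (k : ℝ) / 2) := by ring
    _ ≤ _ := mul_le_mul_of_nonneg_right (mul_le_mul_of_nonneg_right
        (Finset.single_le_sum (fun j _ => hterm j) (Finset.mem_univ i)) hM) hr

end

end Pool.Agent.H13.HH
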